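import Pool.Agent.W973.CES.Defs

namespace Pool.Agent.W371.CES

open Pool.Agent.W973.CES Pool.Agent.NPC

theorem rW_odd (φ : CNF) (st : ℕ → Bool) (g : ℕ) :
    rW φ st (2 * g + 1) = if n3 φ ≤ g then 2 else if st g then 3 else 1 := by
  unfold rW
  have h1 : (2 * g + 1) % 2 ≠ 0 := by omega
  have h2 : (2 * g + 1) / 2 = g := by omega
  rw [if_neg h1, h2]

theorem rW_even (φ : CNF) (st : ℕ → Bool) (g : ℕ) : rW φ st (2 * g) = 0 := by
  unfold rW
  have h1 : (2 * g) % 2 = 0 := by omega
  rw [if_pos h1]

theorem wr (h : S_TOP) : S_WR := by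
  intro φ st hst x hx w hw hlt
  obtain ⟨hn, hvr, -⟩ := h φ
  -- the possible values of `fl st x`
  have hfl : (fl st x = 2 * (x / 2)) ∨ (fl st x = 2 * (x / 2) + 1 ∧
      ((x % 2 = 0 ∧ st (x / 2) = false) ∨ (x % 2 = 1 ∧ st (x / 2) = true))) := by
    unfold fl
    by_cases hs : st (x / 2) = true
    · rw [if_pos hs]
      by_cases hx2 : x % 2 = 0
      · left; omega
      · right; refine ⟨by omega, Or.inr ⟨by omega, hs⟩⟩
    · rw [if_neg hs]
      by_cases hx2 : x % 2 = 0
      · right; refine ⟨by omega, Or.inl ⟨hx2, by simpa using hs⟩⟩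
      · left; omega
  -- the first entry
  have hhead : ∃ r, topW φ x = 2 * (x / 2) :: r := by
    unfold topW
    split_ifs
    · exact ⟨_, rfl⟩
    · exact ⟨_, rfl⟩
    · exact ⟨_, rfl⟩
  have hmem : 2 * (x / 2) + 1 ∈ topW φ x := by
    unfold topW
    split_ifs <;> simp
  rcases hfl with hf | ⟨hf, hcase⟩
  · -- impossible
    exfalso
    obtain ⟨r, hr⟩ := hhead
    rw [hf, hr] at hlt
    unfold Lt at hlt
    rw [List.idxOf_cons_self] at hlt
    rcases hlt with h1 | ⟨h1, h2⟩
    · omega
    · have hne : 2 * (x / 2) ≠ w := by omega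
      rw [List.idxOf_cons_ne _ hne] at h1
      omega
  · rw [hf] at hlt ⊢
    have hw1 : w ∈ topW φ x ∧ w ≠ 2 * (x / 2) + 1 := by
      unfold Lt at hlt
      have hlen := List.idxOf_lt_length_of_mem hmem
      rcases hlt with h1 | ⟨h1, h2⟩
      · refine ⟨List.idxOf_lt_length_iff.1 (lt_trans h1 hlen), ?_⟩
        rintro rfl
        exact lt_irrefl _ h1
      · exfalso
        have hwm : w ∈ topW φ x := List.idxOf_lt_length_iff.1 (h1 ▸ hlen)
        have := (List.idxOf_inj hwm).1 h1
        omega
    obtain ⟨hwm, hwne⟩ := hw1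
    rw [rW_odd]
    unfold topW at hwm
    by_cases hg : x / 2 < n3 φ
    · rw [if_pos hg] at hwm
      rw [if_neg (by omega : ¬ n3 φ ≤ x / 2)]
      by_cases hx2 : x % 2 = 0
      · rw [if_pos hx2] at hwm
        simp only [List.mem_cons, List.not_mem_nil, or_false] at hwm
        rcases hwm with rfl | hwm
        · rw [rW_even]; split_ifs <;> omega
        · exact absurd hwm hwne
      · rw [if_neg hx2] at hwm
        simp only [List.mem_cons, List.not_mem_nil, or_false] at hwm
        rcases hwm with rfl | rfl | hwm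
        · rw [rW_even]; split_ifs <;> omega
        · rw [rW_odd, if_pos (hvr _ hg).1]
          rcases hcase with hc | hc
          · exact absurd hc.1 hx2
          · rw [if_pos hc.2]; omega
        · exact absurd hwm hwne
    · rw [if_neg hg] at hwm
      rw [if_pos (by omega : n3 φ ≤ x / 2)]
      simp only [List.mem_cons, List.mem_append, List.not_mem_nil, or_false] at hwm
      rcases hwm with rfl | hwm | hwm
      · rw [rW_even]; omega
      · unfold occ at hwm
        rw [List.mem_map] at hwm
        obtain ⟨i, hi, rfl⟩ := hwm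
        rw [List.mem_filter, List.mem_range, Bool.and_eq_true, decide_eq_true_eq,
          decide_eq_true_eq] at hi
        obtain ⟨hi1, hi2, hi3⟩ := hi
        rw [rW_odd, if_neg (by omega : ¬ n3 φ ≤ i)]
        have hsi := hst i hi1
        rw [hi2, hi3] at hsi
        have : st i ≠ true := by
          intro hh
          have h5 := hsi.1 hh
          rcases hcase with ⟨hc1, hc2⟩ | ⟨hc1, hc2⟩
          · rw [hc2] at h5
            simp [hc1] at h5
          · rw [hc2] at h5
            simp [hc1] at h5
        rw [if_neg this]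
        omega
      · exact absurd hwm hwne

end Pool.Agent.W371.CES
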